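import Pool.Agent.N659.HB.Stm

/-!
Estimates for a semicircle level followed by a small law (part LV of the project HB).
-/

namespace Pool.Agent.N306.HB.LV

open MeasureTheory Filter Pool.Agent.W792.LL Pool.Agent.W792.WA Pool.Agent.N659.HB
open scoped Topology ENNReal

noncomputable section

lemma ne0 {t : ℂ} (ht : t.im < 0) (a : ℝ) : t + (a : ℂ) ≠ 0 := by
  intro h
  have := congrArg Complex.im h
  simp at this
  linarith

lemma cont {t : ℂ} (ht : t.im < 0) : Continuous fun a : ℝ => 1 / (t + (a : ℂ)) := by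
  refine Continuous.div continuous_const (by fun_prop) (ne0 ht)

lemma imle {t : ℂ} (ht : t.im < 0) (a : ℝ) : -t.im ≤ ‖t + (a : ℂ)‖ := by
  have := Complex.abs_im_le_norm (t + (a : ℂ))
  simp only [Complex.add_im, Complex.ofReal_im, add_zero] at this
  rwa [abs_of_neg ht] at this

lemma nbd {t : ℂ} (ht : t.im < 0) (a : ℝ) : ‖1 / (t + (a : ℂ))‖ ≤ 1 / (-t.im) := by
  rw [norm_div, norm_one]
  exact one_div_le_one_div_of_le (by linarith) (imle ht a)

lemma intg (ρ : Measure ℝ) [IsFiniteMeasure ρ] {t : ℂ} (ht : t.im < 0) :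
    Integrable (fun a : ℝ => 1 / (t + (a : ℂ))) ρ :=
  Integrable.of_bound (cont ht).aestronglyMeasurable (1 / (-t.im)) (ae_of_all _ (nbd ht))

lemma im_inv (t : ℂ) (a : ℝ) : (1 / (t + (a : ℂ))).im = -t.im / ‖t + (a : ℂ)‖ ^ 2 := by
  rw [one_div, Complex.inv_im, Complex.normSq_eq_norm_sq]
  simp

lemma lesq {a b : ℝ} (h : a ^ 2 ≤ b ^ 2) (hb : 0 ≤ b) : a ≤ b :=
  (le_abs_self a).trans (by simpa [abs_of_nonneg hb] using sq_le_sq.1 h)

/-- (4) in general. -/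
lemma bet_im (ρ : Measure ℝ) [IsProbabilityMeasure ρ] {C : ℝ}
    (hs : ∀ᵐ a ∂ρ, |a| ≤ C) {t : ℂ} (ht : t.im < 0) :
    -t.im / (‖t‖ + C) ^ 2 ≤ (bet ρ t).im := by
  have h1 : (bet ρ t).im = ∫ a, (1 / (t + (a : ℂ))).im ∂ρ := by
    unfold bet
    exact (integral_im (intg ρ ht)).symm
  rw [h1]
  have h2 : (-t.im / (‖t‖ + C) ^ 2) = ∫ _a, (-t.im / (‖t‖ + C) ^ 2) ∂ρ := by simp
  rw [h2]
  apply integral_mono_ae (integrable_const _) (intg ρ ht).im
  filter_upwards [hs] with a ha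
  rw [show RCLike.im (1 / (t + (a : ℂ))) = (1 / (t + (a : ℂ))).im from rfl, im_inv]
  have h3 : 0 < ‖t + (a : ℂ)‖ := norm_pos_iff.2 (ne0 ht a)
  have h4 : ‖t + (a : ℂ)‖ ≤ ‖t‖ + C := by
    refine (norm_add_le _ _).trans ?_
    rw [Complex.norm_real, Real.norm_eq_abs]
    linarith
  exact div_le_div_of_nonneg_left (by linarith) (by positivity) (by gcongr)

/-- (6) in general. -/
lemma bet_lip (ρ : Measure ℝ) [IsProbabilityMeasure ρ] {t t' : ℂ} (ht : t.im < 0)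
    (ht' : t'.im < 0) : ‖bet ρ t - bet ρ t'‖ ≤ ‖t - t'‖ / (t.im * t'.im) := by
  unfold bet
  rw [← integral_sub (intg ρ ht) (intg ρ ht')]
  have hpos : 0 < t.im * t'.im := mul_pos_of_neg_of_neg ht ht'
  have h := norm_integral_le_of_norm_le_const (μ := ρ)
    (f := fun a : ℝ => 1 / (t + (a : ℂ)) - 1 / (t' + (a : ℂ))) (C := ‖t - t'‖ / (t.im * t'.im))
    (ae_of_all _ fun a => by
      have e : 1 / (t + (a : ℂ)) - 1 / (t' + (a : ℂ))
          = (t' - t) / ((t + (a : ℂ)) * (t' + (a : ℂ))) := by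
        rw [div_sub_div _ _ (ne0 ht a) (ne0 ht' a)]
        congr 1
        ring
      rw [e, norm_div, norm_sub_rev, norm_mul]
      apply div_le_div_of_nonneg_left (norm_nonneg _) hpos
      have a1 := imle ht a
      have a2 := imle ht' a
      nlinarith)
  simpa using h

lemma bet_norm (ρ : Measure ℝ) [IsProbabilityMeasure ρ] {c : ℝ} (hc : 0 < c)
    {t : ℂ} (hs : ∀ᵐ a ∂ρ, c ≤ ‖t + ((a : ℝ) : ℂ)‖) : ‖bet ρ t‖ ≤ 1 / c := by
  unfold bet
  have h := norm_integral_le_of_norm_le_const (μ := ρ)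
    (f := fun a : ℝ => 1 / (t + (a : ℂ))) (C := 1 / c)
    (by
      filter_upwards [hs] with a ha
      rw [norm_div, norm_one]
      exact one_div_le_one_div_of_le hc ha)
  simpa using h

/-! ## The level -/

instance lev_prob (ψ : C(UnitAddCircle, ℝ)) (r : ℝ) : IsProbabilityMeasure (lev ψ r) := by
  unfold lev
  have : IsProbabilityMeasure (volume.restrict (Set.Ioc (0 : ℝ) 1)) := ⟨by simp⟩
  apply Measure.isProbabilityMeasure_map
  exact (Continuous.aemeasurable (by fun_prop))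

lemma bet_lev (ψ : C(UnitAddCircle, ℝ)) (r : ℝ) {t : ℂ} (ht : t.im < 0) :
    bet (lev ψ r) t = ∫ φ in Set.Ioc (0 : ℝ) 1, 1 / (t + ((r * ψ (φ : UnitAddCircle) : ℝ) : ℂ)) := by
  unfold bet lev
  rw [integral_map (Continuous.aemeasurable (by fun_prop)) (cont ht).aestronglyMeasurable]

lemma bet_lev' (ψ : C(UnitAddCircle, ℝ)) {r : ℝ} (hr : 0 < r) {t : ℂ} (ht : t.im < 0) :
    r * bet (lev ψ r) t
      = ∫ φ in Set.Ioc (0 : ℝ) 1, 1 / (t / r + (ψ (φ : UnitAddCircle) : ℂ)) := by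
  rw [bet_lev ψ r ht, ← integral_const_mul]
  congr 1
  funext φ
  have hr' : (r : ℂ) ≠ 0 := by exact_mod_cast hr.ne'
  have e : t + ((r * ψ (φ : UnitAddCircle) : ℝ) : ℂ) = r * (t / r + (ψ (φ : UnitAddCircle) : ℂ)) := by
    push_cast
    field_simp
  rw [e, one_div, one_div, mul_inv, ← mul_assoc, mul_inv_cancel₀ hr', one_mul]

lemma lev_supp (ψ : C(UnitAddCircle, ℝ)) (hψ : IsSemi ψ) {r : ℝ} (hr : 0 < r) :
    ∀ᵐ a ∂(lev ψ r), |a| ≤ r := by
  unfold lev
  rw [ae_map_iff (Continuous.aemeasurable (by fun_prop))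
    (measurableSet_le (by fun_prop) measurable_const)]
  refine ae_of_all _ fun φ => ?_
  rw [abs_mul, abs_of_pos hr]
  have := hψ.bound (φ : UnitAddCircle)
  nlinarith

lemma div_im {r : ℝ} (t : ℂ) : (t / (r : ℂ)).im = t.im / r := by
  rw [Complex.div_ofReal_im]

/-- The equation of the level. -/
lemma lev_eqn (ψ : C(UnitAddCircle, ℝ)) (hψ : IsSemi ψ) {r : ℝ} (hr : 0 < r) {t : ℂ}
    (ht : t.im < 0) : ‖bet (lev ψ r) t‖ ≤ 2 / r ∧ bet (lev ψ r) t ≠ 0 ∧
      t = r ^ 2 / 4 * bet (lev ψ r) t + (bet (lev ψ r) t)⁻¹ := by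
  have h := hψ.eqn (t / r) (by rw [div_im]; exact div_neg_of_neg_of_pos ht hr)
  rw [← bet_lev' ψ hr ht] at h
  obtain ⟨h1, h2⟩ := h
  have hr' : (r : ℂ) ≠ 0 := by exact_mod_cast hr.ne'
  have h0 : bet (lev ψ r) t ≠ 0 := by
    intro h0
    rw [h0] at h2
    simp at h2
  refine ⟨?_, h0, ?_⟩
  · rw [norm_mul, Complex.norm_real, Real.norm_eq_abs, abs_of_pos hr] at h1
    rw [le_div_iff₀ hr]
    linarith
  · have h3 : t * bet (lev ψ r) t = r ^ 2 / 4 * bet (lev ψ r) t ^ 2 + 1 := by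
      have : t / r * (r * bet (lev ψ r) t) = t * bet (lev ψ r) t := by
        field_simp
      rw [this] at h2
      linear_combination -h2
    field_simp
    field_simp at h3
    linear_combination h3

/-- Lower bound for the imaginary part of a level. -/
lemma lev_im (ψ : C(UnitAddCircle, ℝ)) (hψ : IsSemi ψ) {r : ℝ} (hr : 0 < r) {t : ℂ}
    (ht : t.im < 0) : 0 < (bet (lev ψ r) t).im ∧
      -t.im * (‖bet (lev ψ r) t‖ ^ 2 + r ^ 2 / 4 * (‖bet (lev ψ r) t‖ ^ 2) ^ 2)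
        ≤ (bet (lev ψ r) t).im := by
  obtain ⟨h1, h0, h2⟩ := lev_eqn ψ hψ hr ht
  have hpos : 0 < (bet (lev ψ r) t).im := by
    refine lt_of_lt_of_le ?_ (bet_im (lev ψ r) (lev_supp ψ hψ hr) ht)
    have : 0 < -t.im := by linarith
    have h3 : 0 < ‖t‖ := norm_pos_iff.2 (by rintro rfl; simp at ht)
    positivity
  refine ⟨hpos, ?_⟩
  set H := bet (lev ψ r) t with hH
  have hn : 0 < ‖H‖ := norm_pos_iff.2 h0
  have h3 : t.im = r ^ 2 / 4 * H.im - H.im / ‖H‖ ^ 2 := by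
    have := congrArg Complex.im h2
    rw [Complex.add_im, Complex.inv_im, Complex.normSq_eq_norm_sq] at this
    have e : ((r : ℂ) ^ 2 / 4 * H).im = r ^ 2 / 4 * H.im := by
      have : ((r : ℂ) ^ 2 / 4) = ((r ^ 2 / 4 : ℝ) : ℂ) := by push_cast; rfl
      rw [this, Complex.im_ofReal_mul]
    rw [e] at this
    rw [this]
    ring
  set u := ‖H‖ ^ 2 with hu
  have hu0 : 0 < u := by positivity
  have h4 : -t.im * u = H.im * (1 - r ^ 2 / 4 * u) := by
    rw [h3]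
    field_simp
    ring
  have h5 : 0 < 1 - r ^ 2 / 4 * u := by
    by_contra hc
    push Not at hc
    have : -t.im * u ≤ 0 := by
      rw [h4]
      exact mul_nonpos_of_nonneg_of_nonpos hpos.le hc
    have h6 : 0 < -t.im * u := mul_pos (by linarith) hu0
    linarith
  calc -t.im * (u + r ^ 2 / 4 * u ^ 2) = (-t.im * u) * (1 + r ^ 2 / 4 * u) := by ring
    _ = H.im * (1 - (r ^ 2 / 4 * u) ^ 2) := by rw [h4]; ring
    _ ≤ H.im := by
        have : 0 ≤ (r ^ 2 / 4 * u) ^ 2 := by positivity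
        nlinarith

/-- (3) for a level. -/
lemma lev_im2 (ψ : C(UnitAddCircle, ℝ)) (hψ : IsSemi ψ) {r : ℝ} (hr : 0 < r) {t : ℂ}
    (ht : t.im < 0) (h1 : |t.re| ≤ r / 2) (h2 : -r ≤ t.im) :
    2 / (5 * r) ≤ (bet (lev ψ r) t).im := by
  obtain ⟨e1, e0, e2⟩ := lev_eqn ψ hψ hr ht
  obtain ⟨hpos, -⟩ := lev_im ψ hψ hr ht
  set H := bet (lev ψ r) t with hH
  have hn : 0 < ‖H‖ := norm_pos_iff.2 e0
  -- the size of `H`
  have a1 : ‖t‖ ≤ 5 / 4 * r := by
    have : ‖t‖ ^ 2 ≤ (5 / 4 * r) ^ 2 := by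
      rw [← Complex.normSq_eq_norm_sq, Complex.normSq_apply]
      have b1 : t.re * t.re ≤ (r / 2) * (r / 2) := by
        have := abs_le.1 h1
        nlinarith [this.1, this.2]
      have b2 : t.im * t.im ≤ r * r := by nlinarith
      nlinarith
    exact lesq this (by positivity)
  have a2 : 1 / 2 ≤ r * ‖H‖ := by
    by_contra hc
    push Not at hc
    have b1 : ‖H⁻¹‖ ≤ ‖t‖ + r ^ 2 / 4 * ‖H‖ := by
      have : H⁻¹ = t - r ^ 2 / 4 * H := by
        rw [e2]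
        ring
      rw [this]
      refine (norm_sub_le _ _).trans ?_
      have e : ‖(r : ℂ) ^ 2 / 4 * H‖ = r ^ 2 / 4 * ‖H‖ := by
        rw [norm_mul, norm_div, norm_pow, Complex.norm_real, Real.norm_eq_abs, abs_of_pos hr]
        norm_num
      rw [e]
    rw [norm_inv] at b1
    have b2 : 1 ≤ ‖H‖ * (‖t‖ + r ^ 2 / 4 * ‖H‖) := by
      calc (1 : ℝ) = ‖H‖ * ‖H‖⁻¹ := (mul_inv_cancel₀ hn.ne').symm
        _ ≤ _ := by gcongr
    have b3 : ‖H‖ * ‖t‖ ≤ ‖H‖ * (5 / 4 * r) := by gcongr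
    have b4 : (r * ‖H‖) * (r * ‖H‖) ≤ (1 / 2) * (1 / 2) := by
      have : 0 ≤ r * ‖H‖ := by positivity
      nlinarith
    nlinarith
  -- real part
  have c1 : t.re = H.re * (r ^ 2 / 4 + 1 / ‖H‖ ^ 2) := by
    have := congrArg Complex.re e2
    rw [Complex.add_re, Complex.inv_re, Complex.normSq_eq_norm_sq] at this
    have e : ((r : ℂ) ^ 2 / 4 * H).re = r ^ 2 / 4 * H.re := by
      have : ((r : ℂ) ^ 2 / 4) = ((r ^ 2 / 4 : ℝ) : ℂ) := by push_cast; rfl
      rw [this, Complex.re_ofReal_mul]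
    rw [e] at this
    rw [this]
    ring
  have c2 : ‖H‖ ^ 2 = H.re ^ 2 + H.im ^ 2 := by
    rw [← Complex.normSq_eq_norm_sq, Complex.normSq_apply]
    ring
  set u := ‖H‖ ^ 2 with hu
  have hu0 : 0 < u := by positivity
  -- `u * r^2 ≥ 1/4`
  have c3 : 1 / 4 ≤ r ^ 2 * u := by
    rw [hu]
    nlinarith
  have c4 : H.re ^ 2 * (r ^ 2 * u + 4) ^ 2 ≤ 4 * r ^ 2 * u ^ 2 := by
    have : t.re * (4 * u) = H.re * (r ^ 2 * u + 4) := by
      rw [c1]
      field_simp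
    have h3 : t.re ^ 2 ≤ r ^ 2 / 4 := by
      have := abs_le.1 h1
      nlinarith [this.1, this.2]
    calc H.re ^ 2 * (r ^ 2 * u + 4) ^ 2 = (H.re * (r ^ 2 * u + 4)) ^ 2 := by ring
      _ = t.re ^ 2 * (16 * u ^ 2) := by rw [← this]; ring
      _ ≤ r ^ 2 / 4 * (16 * u ^ 2) := by gcongr
      _ = 4 * r ^ 2 * u ^ 2 := by ring
  have c5 : H.re ^ 2 ≤ u / 4 := by
    have d1 : 16 * (r ^ 2 * u) ≤ (r ^ 2 * u + 4) ^ 2 := by nlinarith [sq_nonneg (r ^ 2 * u - 4)]
    have d2 : H.re ^ 2 * (16 * (r ^ 2 * u)) ≤ u / 4 * (16 * (r ^ 2 * u)) := by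
      calc H.re ^ 2 * (16 * (r ^ 2 * u)) ≤ H.re ^ 2 * (r ^ 2 * u + 4) ^ 2 := by gcongr
        _ ≤ 4 * r ^ 2 * u ^ 2 := c4
        _ = u / 4 * (16 * (r ^ 2 * u)) := by ring
    exact le_of_mul_le_mul_right d2 (by positivity)
  have c6 : 3 / 4 * u ≤ H.im ^ 2 := by linarith
  have c7 : (2 / 5) ^ 2 ≤ (r * H.im) ^ 2 := by
    have : r ^ 2 * (3 / 4 * u) ≤ r ^ 2 * H.im ^ 2 := by gcongr
    nlinarith
  have c8 : 2 / 5 ≤ r * H.im := lesq c7 (by positivity)
  rw [div_le_iff₀ (by positivity)]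
  linarith

/-! ## The convolution -/

lemma conv_eq (ψ : C(UnitAddCircle, ℝ)) (r : ℝ) (ρ' : Measure ℝ) [IsProbabilityMeasure ρ'] {t : ℂ}
    (ht : t.im < 0) :
    bet ((lev ψ r).conv ρ') t = ∫ a, bet (lev ψ r) (t + (a : ℂ)) ∂ρ' := by
  have e : (lev ψ r).conv ρ' = ρ'.conv (lev ψ r) := Measure.conv_comm _ _
  rw [e]
  unfold bet
  rw [integral_conv (intg _ ht)]
  congr 1
  funext a
  congr 1
  funext b
  push_cast
  rw [add_assoc]

lemma addr_im (t : ℂ) (a : ℝ) : (t + (a : ℂ)).im = t.im := by simp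

lemma addr_re (t : ℂ) (a : ℝ) : (t + (a : ℂ)).re = t.re + a := by simp

lemma cont_lev (ρ : Measure ℝ) [IsProbabilityMeasure ρ] {t : ℂ} (ht : t.im < 0) :
    Continuous fun a : ℝ => bet ρ (t + (a : ℂ)) := by
  have hpos : 0 < t.im * t.im := mul_pos_of_neg_of_neg ht ht
  apply LipschitzWith.continuous (K := Real.toNNReal (1 / (t.im * t.im)))
  apply LipschitzWith.of_dist_le_mul
  intro a b
  rw [dist_eq_norm, Real.coe_toNNReal _ (by positivity)]
  have := bet_lip ρ (t := t + (a : ℂ)) (t' := t + (b : ℂ)) (by rwa [addr_im]) (by rwa [addr_im])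
  refine this.trans (le_of_eq ?_)
  rw [addr_im, addr_im, add_sub_add_left_eq_sub, ← Complex.ofReal_sub, Complex.norm_real,
    ← dist_eq_norm]
  ring

lemma ae_supp {ρ' : Measure ℝ} {c : ℝ} (h : ρ' (Set.Icc (-c) c)ᶜ = 0) : ∀ᵐ a ∂ρ', |a| ≤ c := by
  rw [ae_iff]
  refine measure_mono_null (fun a ha => ?_) h
  simp only [Set.mem_ofPred_eq, not_le] at ha
  simp only [Set.mem_compl_iff, Set.mem_Icc, not_and_or, not_le]
  rcases lt_abs.1 ha with h1 | h1
  · right; exact h1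
  · left; linarith

lemma conv_supp (ψ : C(UnitAddCircle, ℝ)) (hψ : IsSemi ψ) {r : ℝ} (hr : 0 < r) {ρ' : Measure ℝ}
    [IsProbabilityMeasure ρ'] (h : ∀ᵐ a ∂ρ', |a| ≤ r / 8) :
    ∀ᵐ a ∂((lev ψ r).conv ρ'), |a| ≤ 9 * r / 8 := by
  unfold Measure.conv
  rw [ae_map_iff (by fun_prop) (measurableSet_le (by fun_prop) measurable_const)]
  have h1 : ∀ᵐ z ∂((lev ψ r).prod ρ'), |z.1| ≤ r :=
    (Measure.quasiMeasurePreserving_fst (μ := lev ψ r) (ν := ρ')).ae (lev_supp ψ hψ hr)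
  have h2 : ∀ᵐ z ∂((lev ψ r).prod ρ'), |z.2| ≤ r / 8 :=
    (Measure.quasiMeasurePreserving_snd (μ := lev ψ r) (ν := ρ')).ae h
  filter_upwards [h1, h2] with z hz1 hz2
  have := abs_add_le z.1 z.2
  linarith

theorem main : S_LV := by
  intro ψ hψ r ρ' _ hr hρ t ht
  have hs := ae_supp hρ
  have hS := conv_supp ψ hψ hr hs
  have hE := conv_eq ψ r ρ' ht
  have him : ∀ a : ℝ, (t + (a : ℂ)).im < 0 := fun a => by rwa [addr_im]
  have hint : Integrable (fun a : ℝ => bet (lev ψ r) (t + (a : ℂ))) ρ' :=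
    Integrable.of_bound (cont_lev _ ht).aestronglyMeasurable (2 / r)
      (ae_of_all _ fun a => (lev_eqn ψ hψ hr (him a)).1)
  have h4 : -t.im / (‖t‖ + 2 * r) ^ 2 ≤ (bet ((lev ψ r).conv ρ') t).im :=
    bet_im _ (by filter_upwards [hS] with a ha; linarith) ht
  have hImpos : 0 < (bet ((lev ψ r).conv ρ') t).im := by
    refine lt_of_lt_of_le ?_ h4
    have : 0 < -t.im := by linarith
    positivity
  have hIm : (bet ((lev ψ r).conv ρ') t).im = ∫ a, (bet (lev ψ r) (t + (a : ℂ))).im ∂ρ' := by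
    rw [hE]
    exact (integral_im hint).symm
  refine ⟨?_, ?_, ?_, h4, ?_, ?_⟩
  · rw [hE]
    have := norm_integral_le_of_norm_le_const (μ := ρ')
      (ae_of_all _ fun a : ℝ => (lev_eqn ψ hψ hr (him a)).1)
    simpa using this
  · intro h
    have hp : 0 < |t.re| := by linarith
    have := bet_norm ((lev ψ r).conv ρ') (c := 7 / 16 * |t.re|) (t := t) (by positivity) (by
      filter_upwards [hS] with a ha
      have h1 := Complex.abs_re_le_norm (t + (a : ℂ))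
      rw [addr_re] at h1
      have h2 : |t.re| ≤ |t.re + a| + |a| := by
        have := abs_sub_le (t.re + a) a 0
        have h3 := abs_sub (t.re + a) a
        simpa using (abs_sub (t.re + a) a)
      linarith)
    refine this.trans ?_
    rw [div_le_div_iff₀ (by positivity) hp]
    linarith
  · intro h1 h2
    rw [hIm]
    have e : 2 / (5 * r) = ∫ _a, 2 / (5 * r) ∂ρ' := by simp
    rw [e]
    apply integral_mono_ae (integrable_const _) hint.im
    filter_upwards [hs] with a ha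
    apply lev_im2 ψ hψ hr (him a)
    · rw [addr_re]
      have := abs_add_le t.re a
      linarith
    · rwa [addr_im]
  · set B := bet ((lev ψ r).conv ρ') t with hB
    have hB0 : B ≠ 0 := by
      intro h0
      rw [h0] at hImpos
      simp at hImpos
    have hn : 0 < ‖B‖ := norm_pos_iff.2 hB0
    set f : ℝ → ℝ := fun a => ‖bet (lev ψ r) (t + (a : ℂ))‖ with hf
    have hfc : Continuous f := (cont_lev _ ht).norm
    have hfb : ∀ a, |f a| ≤ 2 / r := fun a => by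
      rw [hf, abs_of_nonneg (norm_nonneg _)]
      exact (lev_eqn ψ hψ hr (him a)).1
    have i1 : Integrable f ρ' := hint.norm
    have i2 : Integrable (fun a => f a ^ 2) ρ' :=
      Integrable.of_bound (hfc.pow 2).aestronglyMeasurable ((2 / r) ^ 2)
        (ae_of_all _ fun a => by
          rw [Real.norm_eq_abs, abs_pow]
          exact pow_le_pow_left₀ (abs_nonneg _) (hfb a) 2)
    have i4 : Integrable (fun a => (f a ^ 2) ^ 2) ρ' :=
      Integrable.of_bound ((hfc.pow 2).pow 2).aestronglyMeasurable (((2 / r) ^ 2) ^ 2)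
        (ae_of_all _ fun a => by
          rw [Real.norm_eq_abs, abs_pow, abs_pow]
          exact pow_le_pow_left₀ (by positivity) (pow_le_pow_left₀ (abs_nonneg _) (hfb a) 2) 2)
    have k1 : ‖B‖ ≤ ∫ a, f a ∂ρ' := by
      rw [hE]
      exact norm_integral_le_integral_norm _
    have sqle : ∀ g : ℝ → ℝ, Integrable g ρ' → Integrable (fun a => g a ^ 2) ρ' →
        (∫ a, g a ∂ρ') ^ 2 ≤ ∫ a, g a ^ 2 ∂ρ' := by
      intro g hg hg2
      have h0 : 0 ≤ ∫ a, (g a - ∫ b, g b ∂ρ') ^ 2 ∂ρ' := integral_nonneg fun a => sq_nonneg _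
      have e : (fun a => (g a - ∫ b, g b ∂ρ') ^ 2)
          = fun a => g a ^ 2 - 2 * (∫ b, g b ∂ρ') * g a + (∫ b, g b ∂ρ') ^ 2 := by
        funext a
        ring
      have e2 : ∫ a, (g a - ∫ b, g b ∂ρ') ^ 2 ∂ρ'
          = ∫ a, g a ^ 2 ∂ρ' - 2 * (∫ b, g b ∂ρ') * (∫ b, g b ∂ρ') + (∫ b, g b ∂ρ') ^ 2 := by
        rw [e]
        have i3 : Integrable (fun a => 2 * (∫ b, g b ∂ρ') * g a) ρ' := hg.const_mul _
        have i5 : Integrable (fun a => g a ^ 2 - 2 * (∫ b, g b ∂ρ') * g a) ρ' := hg2.sub i3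
        rw [integral_add i5 (integrable_const _), integral_sub hg2 i3, integral_const_mul]
        simp only [integral_const, probReal_univ, smul_eq_mul, one_mul]
      rw [e2] at h0
      nlinarith
    have k2 : ‖B‖ ^ 2 ≤ ∫ a, f a ^ 2 ∂ρ' :=
      (pow_le_pow_left₀ hn.le k1 2).trans (sqle f i1 i2)
    have k4 : (‖B‖ ^ 2) ^ 2 ≤ ∫ a, (f a ^ 2) ^ 2 ∂ρ' :=
      (pow_le_pow_left₀ (by positivity) k2 2).trans (sqle _ i2 i4)
    have k5 : -t.im * (‖B‖ ^ 2 + r ^ 2 / 4 * (‖B‖ ^ 2) ^ 2) ≤ B.im := by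
      rw [hIm]
      calc -t.im * (‖B‖ ^ 2 + r ^ 2 / 4 * (‖B‖ ^ 2) ^ 2)
          ≤ -t.im * (∫ a, f a ^ 2 ∂ρ' + r ^ 2 / 4 * ∫ a, (f a ^ 2) ^ 2 ∂ρ') := by
            have : 0 ≤ -t.im := by linarith
            gcongr
        _ = ∫ a, -t.im * (f a ^ 2 + r ^ 2 / 4 * (f a ^ 2) ^ 2) ∂ρ' := by
            rw [integral_const_mul, integral_add i2 (i4.const_mul _), integral_const_mul]
        _ ≤ _ := by
            apply integral_mono ((i2.add (i4.const_mul _)).const_mul _) hint.im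
            intro a
            have := (lev_im ψ hψ hr (him a)).2
            rw [addr_im] at this
            exact this
    have k6 : -(1 / B).im = B.im / ‖B‖ ^ 2 := by
      rw [one_div, Complex.inv_im, Complex.normSq_eq_norm_sq]
      ring
    rw [k6, le_div_iff₀ (by positivity)]
    calc -t.im * (1 + r ^ 2 / 4 * ‖B‖ ^ 2) * ‖B‖ ^ 2
        = -t.im * (‖B‖ ^ 2 + r ^ 2 / 4 * (‖B‖ ^ 2) ^ 2) := by ring
      _ ≤ B.im := k5
  · intro t' ht'
    exact bet_lip _ ht ht'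

end

end Pool.Agent.N306.HB.LV
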